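import Pool.Agent.L7h31.CE.Stm

/-!
# Project CE (euclidean coronas): part SIG
-/

set_option autoImplicit false

namespace Pool.Agent.L7h78.CEU

open Pool.Agent.L7h31.CE

theorem s_SIG (h : S_DST) : S_SIG := by
  intro r D
  obtain ⟨h1, -, h3, -⟩ := h r
  have hdist : ∀ (z : E r) (i : ℤ) (ν : Fin r → ℤ), dist z (cen D i ν) ^ 2 =
      (∑ a, (hor z a - (D.w i a + ν a)) ^ 2) + (ver z - ((r : ℝ) + 1) * i) ^ 2 := by
    intro z i ν
    rw [h3]
    unfold cen
    obtain ⟨h4, h5⟩ := h1 (fun a => D.w i a + ν a) (((r : ℝ) + 1) * i)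
    rw [h5]
    congr 1
    refine Finset.sum_congr rfl fun a _ => ?_
    rw [h4]
  have hr : (0 : ℝ) ≤ r := Nat.cast_nonneg r
  constructor
  · intro z ρ
    have hfin : (⋃ i ∈ Set.Icc (-⌈|ver z| + |ρ|⌉) ⌈|ver z| + |ρ|⌉,
        (cen D i) '' (Set.pi Set.univ fun a => Set.Icc (-⌈|hor z a - D.w i a| + |ρ|⌉)
          ⌈|hor z a - D.w i a| + |ρ|⌉)).Finite := by
      refine Set.Finite.biUnion (Set.finite_Icc _ _) fun i _ => ?_
      exact Set.Finite.image _ (Set.Finite.pi fun a => Set.finite_Icc _ _)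
    refine hfin.subset ?_
    rintro c ⟨⟨i, ν, rfl⟩, hc⟩
    rw [Metric.mem_closedBall, dist_comm] at hc
    have h4 := hdist z i ν
    have h5 : dist z (cen D i ν) ^ 2 ≤ |ρ| ^ 2 :=
      pow_le_pow_left₀ dist_nonneg (hc.trans (le_abs_self ρ)) 2
    rw [h4] at h5
    have hsum : 0 ≤ ∑ a, (hor z a - (D.w i a + ν a)) ^ 2 :=
      Finset.sum_nonneg fun _ _ => sq_nonneg _
    have h6 : |ver z - ((r : ℝ) + 1) * i| ≤ |ρ| := by
      have := sq_nonneg (ver z - ((r : ℝ) + 1) * i)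
      exact (sq_le_sq₀ (abs_nonneg _) (abs_nonneg _)).1 (by rw [sq_abs]; linarith)
    have h7 : ∀ a, |hor z a - (D.w i a + ν a)| ≤ |ρ| := by
      intro a
      have h8 : (hor z a - (D.w i a + ν a)) ^ 2 ≤ ∑ a, (hor z a - (D.w i a + ν a)) ^ 2 :=
        Finset.single_le_sum (f := fun a => (hor z a - (D.w i a + ν a)) ^ 2)
          (fun _ _ => sq_nonneg _) (Finset.mem_univ a)
      have := sq_nonneg (ver z - ((r : ℝ) + 1) * i)
      exact (sq_le_sq₀ (abs_nonneg _) (abs_nonneg _)).1 (by rw [sq_abs]; linarith)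
    have h9 : |(i : ℝ)| ≤ |ver z| + |ρ| := by
      have h10 : |((r : ℝ) + 1) * i| ≤ |ver z| + |ρ| := by
        calc |((r : ℝ) + 1) * i| = |ver z - (ver z - ((r : ℝ) + 1) * i)| := by
              congr 1
              ring
          _ ≤ |ver z| + |ver z - ((r : ℝ) + 1) * i| := abs_sub _ _
          _ ≤ |ver z| + |ρ| := by linarith
      rw [abs_mul, abs_of_nonneg (by positivity : (0 : ℝ) ≤ (r : ℝ) + 1)] at h10
      nlinarith [abs_nonneg (i : ℝ)]
    refine Set.mem_iUnion₂.2 ⟨i, ?_, ν, ?_, rfl⟩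
    · have h10 := (abs_le.1 h9)
      have h11 : (|ver z| + |ρ| : ℝ) ≤ ⌈|ver z| + |ρ|⌉ := Int.le_ceil _
      constructor
      · have : (-(⌈|ver z| + |ρ|⌉ : ℝ)) ≤ i := by linarith
        exact_mod_cast this
      · have : (i : ℝ) ≤ (⌈|ver z| + |ρ|⌉ : ℝ) := by linarith
        exact_mod_cast this
    · intro a _
      have h10 : |(ν a : ℝ)| ≤ |hor z a - D.w i a| + |ρ| := by
        calc |(ν a : ℝ)| = |(hor z a - D.w i a) - (hor z a - (D.w i a + ν a))| := by
              congr 1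
              ring
          _ ≤ |hor z a - D.w i a| + |hor z a - (D.w i a + ν a)| := abs_sub _ _
          _ ≤ |hor z a - D.w i a| + |ρ| := by
              have := h7 a
              linarith
      have h11 : (|hor z a - D.w i a| + |ρ| : ℝ) ≤ ⌈|hor z a - D.w i a| + |ρ|⌉ := Int.le_ceil _
      have h12 := abs_le.1 h10
      constructor
      · have : (-(⌈|hor z a - D.w i a| + |ρ|⌉ : ℝ)) ≤ ν a := by linarith
        exact_mod_cast this
      · have : (ν a : ℝ) ≤ (⌈|hor z a - D.w i a| + |ρ|⌉ : ℝ) := by linarith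
        exact_mod_cast this
  · intro z
    set i : ℤ := round (ver z / ((r : ℝ) + 1)) with hi
    refine ⟨cen D i fun a => round (hor z a - D.w i a), ⟨i, _, rfl⟩, ?_⟩
    have h4 := hdist z i fun a => round (hor z a - D.w i a)
    have h5 : ∀ a, (hor z a - (D.w i a + (round (hor z a - D.w i a) : ℤ))) ^ 2 ≤ 1 / 4 := by
      intro a
      have h6 := abs_sub_round (hor z a - D.w i a)
      have h7 := abs_le.1 h6
      nlinarith
    have h6 : (ver z - ((r : ℝ) + 1) * i) ^ 2 ≤ (((r : ℝ) + 1) / 2) ^ 2 := by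
      have h7 := abs_le.1 (abs_sub_round (ver z / ((r : ℝ) + 1)))
      have h8 : ver z - ((r : ℝ) + 1) * i = ((r : ℝ) + 1) * (ver z / ((r : ℝ) + 1) - i) := by
        field_simp
      rw [h8, ← hi] at *
      have h9 : (0 : ℝ) < (r : ℝ) + 1 := by positivity
      have h10 : (ver z / ((r : ℝ) + 1) - i) ^ 2 ≤ 1 / 4 := by nlinarith
      rw [mul_pow, div_pow]
      have h11 : (0 : ℝ) ≤ ((r : ℝ) + 1) ^ 2 := by positivity
      nlinarith
    have h7 : ∑ a, (hor z a - (D.w i a + (round (hor z a - D.w i a) : ℤ))) ^ 2 ≤ r * (1 / 4) := by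
      calc ∑ a, (hor z a - (D.w i a + (round (hor z a - D.w i a) : ℤ))) ^ 2 ≤
          ∑ _a : Fin r, (1 / 4 : ℝ) := Finset.sum_le_sum fun a _ => h5 a
        _ = r * (1 / 4) := by simp
    have h8 : dist z (cen D i fun a => round (hor z a - D.w i a)) ^ 2 ≤ ((r : ℝ) + 1) ^ 2 := by
      rw [h4]
      nlinarith
    exact (sq_le_sq₀ dist_nonneg (by positivity)).1 h8

end Pool.Agent.L7h78.CEU
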